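import Pool.Agent.Q235.NL.Man
import Pool.Agent.Q235.NL.Sim

/-!
# Homeomorphisms of closed 4-manifolds which are close to linear at all small scales

Let `M` be a closed smooth 4-manifold (for instance `S¹ × S³` or the twisted product), `N` a
connected smooth 4-manifold and `f : M → N` a homeomorphism. The bad set of `f` is the closed set of
the points at which `f` is not a local diffeomorphism. There is a universal `ε > 0` such that `M`
and `N` are diffeomorphic as soon as every connected component of the bad set lies in a coordinate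
ball of `M` whose image lies in a coordinate system of `N`, and in these coordinates `f` is, at the
points of the component and on all balls `B(z, r)` of small radius, `ε r`-close to an affine map
(after a linear change of the target) or distorts distances by a factor `c` up to `ε c r`. The
linear map, respectively the factor `c`, may depend on the ball in an arbitrary way. The
diffeomorphism agrees with `f` outside any given neighbourhood of the bad set.
-/

set_option autoImplicit false

open Set Filter Topology Metric Function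
open scoped Manifold ContDiff

namespace Pool.Agent.Results.MP_6db3ee_gt.NearlyLinearHomeo

/-- `ℝ⁴` -/
abbrev R4 : Type := EuclideanSpace ℝ (Fin 4)

/-- at all small scales `r` and all points `z` near `x` there is a linear map `L` such that `L ∘ H`
is `ε r`-close to a translation on the ball `B(z, r)` -/
def CloseToLinear (ε : ℝ) (H : R4 → R4) (x : R4) : Prop :=
  ∃ ρ : ℝ, 0 < ρ ∧ ∀ z : R4, ‖z - x‖ < ρ → ∀ r : ℝ, 0 < r → r < ρ →
    ∃ L : R4 →L[ℝ] R4, ∀ w : R4, ‖w‖ ≤ r → ‖L (H (z + w) - H z) - w‖ ≤ ε * r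

/-- at all small scales `r` and all points `z` near `x` there is a factor `c` such that `H`
multiplies all distances in the ball `B(z, r)` by `c`, with an error of at most `ε c r` -/
def CloseToSimilarity (ε : ℝ) (H : R4 → R4) (x : R4) : Prop :=
  ∃ ρ : ℝ, 0 < ρ ∧ ∀ z : R4, ‖z - x‖ < ρ → ∀ r : ℝ, 0 < r → r < ρ →
    ∃ c : ℝ, 0 < c ∧ ∀ p q : R4, ‖p - z‖ ≤ r → ‖q - z‖ ≤ r →
      |‖H p - H q‖ - c * ‖p - q‖| ≤ ε * c * r

section

variable {M N : Type} [TopologicalSpace M] [ChartedSpace R4 M]
  [TopologicalSpace N] [ChartedSpace R4 N]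

/-- the bad set: the points at which `f` is not a local diffeomorphism -/
def Bad (f : M → N) : Set M := {x | ¬ IsLocalDiffeomorphAt (𝓡 4) (𝓡 4) ∞ f x}

/-- there are a coordinate ball `A : ℝ⁴ → M` containing `Z` and a coordinate system `ψ` of `N` on
the image of this ball in which `f` is close to linear or close to a similarity, with constant `ε`,
at each point of `Z` -/
def CloseNear (ε : ℝ) (f : M → N) (Z : Set M) : Prop :=
  ∃ (A : R4 → M) (ψ : N → R4), Injective A ∧ (∀ z, IsLocalDiffeomorphAt (𝓡 4) (𝓡 4) ∞ A z) ∧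
    Z ⊆ range A ∧ InjOn ψ (f '' range A) ∧
    (∀ z, IsLocalDiffeomorphAt (𝓡 4) (𝓡 4) ∞ ψ (f (A z))) ∧
    ∀ z, A z ∈ Z → CloseToLinear ε (fun y => ψ (f (A y))) z ∨
      CloseToSimilarity ε (fun y => ψ (f (A y))) z

end

theorem result : ∃ ε : ℝ, 0 < ε ∧ ∀ (M N : Type) [TopologicalSpace M] [ChartedSpace R4 M]
    [IsManifold (𝓡 4) ∞ M] [T2Space M] [CompactSpace M] [TopologicalSpace N] [ChartedSpace R4 N]
    [IsManifold (𝓡 4) ∞ N] [T2Space N] [ConnectedSpace N] (f : M ≃ₜ N) (U : Set M), IsOpen U →
    Bad f ⊆ U → (∀ x ∈ Bad f, CloseNear ε f (connectedComponentIn (Bad f) x)) →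
    ∃ g : Diffeomorph (𝓡 4) (𝓡 4) M N ∞, ∀ x, x ∉ U → g x = f x := by
  refine ⟨min (Pool.Agent.Q235.NL.eps 4) (Pool.Agent.Q235.NL.epsS 4),
    lt_min Pool.Agent.Q235.NL.eps_pos Pool.Agent.Q235.NL.epsS_pos, ?_⟩
  intro M N _ _ _ _ _ _ _ _ _ _ f U hU hBU h
  refine Pool.Agent.Q235.NL.diffeo (by norm_num) f U hU (fun x hx => hBU hx) ?_
  intro x hx
  obtain ⟨A, ψ, hA, hAL, hZ, hψ, hψL, hN⟩ := h x hx
  refine ⟨A, ψ, hA, hAL, hZ, hψ, hψL, fun z hz => ?_⟩
  rcases hN z hz with h' | h'
  · exact Pool.Agent.Q235.NL.NearLin.mono (min_le_left _ _) h'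
  · exact Pool.Agent.Q235.NL.nearLin_of_epsS
      (lt_min Pool.Agent.Q235.NL.eps_pos Pool.Agent.Q235.NL.epsS_pos) (min_le_right _ _) h'

end Pool.Agent.Results.MP_6db3ee_gt.NearlyLinearHomeo
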